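import Pool.Agent.Helper30.Full.GoalsW
import Pool.Agent.Helper75.ProC.Prod

/-!
# W3: cyclotomic modules
-/

set_option autoImplicit false

namespace Pool.Agent.Helper10.Full

open Polynomial Pool.Agent.Helper85.ProP Pool.Agent.Helper30.Full

universe u

/-! ### identities in commutative rings -/

section ring

variable {p : ℕ} [hp : Fact p.Prime] {n : ℕ} {R : Type u} [CommRing R] {γ η : R}

/-- transport of polynomial identities from `ℤ[ζ]` -/
theorem transfer (hΨ : ∑ i ∈ Finset.range p, γ ^ (i * p ^ n) = 0) {ζ : ℂ}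
    (hζ : IsPrimitiveRoot ζ (p ^ (n + 1))) (F : ℤ[X][X])
    (h0 : F.map (aeval ζ : ℤ[X] →ₐ[ℤ] ℂ).toRingHom = 0) :
    eval₂ (aeval γ : ℤ[X] →ₐ[ℤ] R).toRingHom η F = 0 := by
  have hpos : 0 < p ^ (n + 1) := pow_pos hp.out.pos _
  have h1 : C (Ps p n) ∣ F := by
    rw [C_dvd_iff_dvd_coeff]
    intro i
    have h2 : aeval ζ (F.coeff i) = 0 := by
      have := congrArg (fun q => coeff q i) h0
      simpa [coeff_map] using this
    rw [ps_eq_cyclotomic, cyclotomic_eq_minpoly hζ hpos]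
    exact minpoly.isIntegrallyClosed_dvd (hζ.isIntegral hpos) h2
  obtain ⟨G, hG⟩ := h1
  have h5 : (aeval γ : ℤ[X] →ₐ[ℤ] R).toRingHom (Ps p n) = ∑ i ∈ Finset.range p, γ ^ (i * p ^ n) := by
    unfold Ps
    rw [map_sum]
    refine Finset.sum_congr rfl fun i _ => ?_
    rw [map_pow]
    congr 1
    exact aeval_X γ
  rw [hG, eval₂_mul, eval₂_C, h5, hΨ, zero_mul]

theorem ev_pow (γ : R) (j : ℕ) :
    (aeval γ : ℤ[X] →ₐ[ℤ] R).toRingHom ((X : ℤ[X]) ^ j) = γ ^ j := by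
  rw [map_pow]
  congr 1
  exact aeval_X γ

/-- the exponents prime to `p` -/
def SS (p n : ℕ) : Finset ℕ := (Finset.range (p ^ (n + 1))).filter fun z => ¬ p ∣ z

theorem coprime_iff (z : ℕ) : z.Coprime (p ^ (n + 1)) ↔ ¬ p ∣ z := by
  rw [Nat.coprime_comm, Nat.coprime_pow_left_iff (Nat.succ_pos n)]
  exact hp.out.coprime_iff_not_dvd

theorem card_SS (p n : ℕ) [hp : Fact p.Prime] : (SS p n).card = p ^ n * (p - 1) := by
  have h := Nat.totient_prime_pow_succ hp.out n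
  rw [← h, Nat.totient_eq_card_coprime]
  congr 1
  unfold SS
  refine Finset.filter_congr fun z _ => ?_
  rw [Nat.coprime_comm, coprime_iff]

omit hp in
theorem gamma_one (hΨ : ∑ i ∈ Finset.range p, γ ^ (i * p ^ n) = 0) : γ ^ p ^ (n + 1) = 1 := by
  have h := mul_geom_sum (γ ^ p ^ n) p
  have h2 : ∑ i ∈ Finset.range p, (γ ^ p ^ n) ^ i = 0 := by
    rw [← hΨ]
    refine Finset.sum_congr rfl fun i _ => ?_
    rw [← pow_mul, mul_comm]
  rw [h2, mul_zero, ← pow_mul, ← pow_succ] at h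
  exact (sub_eq_zero.1 h.symm)

theorem prodAll (hΨ : ∑ i ∈ Finset.range p, γ ^ (i * p ^ n) = 0) :
    ∏ z ∈ Finset.range (p ^ (n + 1)), (η - γ ^ z) = η ^ p ^ (n + 1) - 1 := by
  obtain ⟨c, hc⟩ := Pool.Agent.Helper75.ProC.stmtProd p n R γ η
  rw [hc, hΨ, mul_zero, add_zero]

theorem prodPrim (hΨ : ∑ i ∈ Finset.range p, γ ^ (i * p ^ n) = 0) :
    ∏ z ∈ SS p n, (η - γ ^ z) = ∑ i ∈ Finset.range p, η ^ (i * p ^ n) := by
  have hpos : 0 < p ^ (n + 1) := pow_pos hp.out.pos _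
  have hζ := Complex.isPrimitiveRoot_exp (p ^ (n + 1)) hpos.ne'
  set ζ := Complex.exp (2 * Real.pi * Complex.I / ((p ^ (n + 1) : ℕ) : ℂ)) with hζd
  have key := transfer (η := η) hΨ hζ (∏ j ∈ SS p n, (X - C ((X : ℤ[X]) ^ j)) -
    ∑ i ∈ Finset.range p, X ^ (i * p ^ n)) (by
      simp only [Polynomial.map_sub, Polynomial.map_prod, map_X, map_C, Polynomial.map_pow,
        Polynomial.map_sum]
      simp only [ev_pow]
      have h1 : ∏ j ∈ SS p n, ((X : ℂ[X]) - C (ζ ^ j)) = cyclotomic (p ^ (n + 1)) ℂ := by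
        rw [cyclotomic_eq_prod_X_sub_primitiveRoots hζ]
        refine Finset.prod_bij (fun j _ => ζ ^ j) ?_ ?_ ?_ (fun _ _ => rfl)
        · intro j hj
          rw [mem_primitiveRoots hpos]
          refine hζ.pow_of_coprime j ?_
          rw [coprime_iff]
          exact (Finset.mem_filter.1 hj).2
        · intro i hi j hj h
          exact hζ.pow_inj (Finset.mem_range.1 (Finset.mem_filter.1 hi).1)
            (Finset.mem_range.1 (Finset.mem_filter.1 hj).1) h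
        · intro b hb
          rw [mem_primitiveRoots hpos] at hb
          have : NeZero (p ^ (n + 1)) := ⟨hpos.ne'⟩
          obtain ⟨i, hi, hc, h⟩ := (hζ.isPrimitiveRoot_iff).1 hb
          refine ⟨i, ?_, h⟩
          unfold SS
          rw [Finset.mem_filter, Finset.mem_range]
          exact ⟨hi, (coprime_iff i).1 hc⟩
      rw [h1, cyclotomic_prime_pow_eq_geom_sum hp.out, sub_eq_zero]
      refine Finset.sum_congr rfl fun i _ => ?_
      rw [← pow_mul, mul_comm])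
  rw [eval₂_sub, eval₂_finsetProd, sub_eq_zero, eval₂_finsetSum] at key
  have h4 : ∀ j ∈ SS p n, eval₂ (aeval γ : ℤ[X] →ₐ[ℤ] R).toRingHom η (X - C ((X : ℤ[X]) ^ j)) =
      η - γ ^ j := by
    intro j _
    rw [eval₂_sub, eval₂_X, eval₂_C, ev_pow]
  rw [Finset.prod_congr rfl h4] at key
  rw [key]
  refine Finset.sum_congr rfl fun i _ => ?_
  rw [eval₂_pow, eval₂_X]

theorem prodPart (hΨ : ∑ i ∈ Finset.range p, γ ^ (i * p ^ n) = 0) {j : ℕ} (hj : j ≤ n) :
    ∏ z ∈ Finset.range (p ^ j), (η - γ ^ (p ^ (n + 1 - j) * z)) = η ^ p ^ j - 1 := by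
  have hpos : 0 < p ^ (n + 1) := pow_pos hp.out.pos _
  have hζ := Complex.isPrimitiveRoot_exp (p ^ (n + 1)) hpos.ne'
  set ζ := Complex.exp (2 * Real.pi * Complex.I / ((p ^ (n + 1) : ℕ) : ℂ)) with hζd
  have hζ' : IsPrimitiveRoot (ζ ^ p ^ (n + 1 - j)) (p ^ j) := by
    refine hζ.pow hpos ?_
    rw [← pow_add]
    congr 1
    omega
  have key := transfer (η := η) hΨ hζ
    (∏ z ∈ Finset.range (p ^ j), (X - C ((X : ℤ[X]) ^ (p ^ (n + 1 - j) * z))) -
      (X ^ p ^ j - 1)) (by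
      simp only [Polynomial.map_sub, Polynomial.map_prod, map_X, map_C, Polynomial.map_pow,
        Polynomial.map_one]
      simp only [ev_pow]
      have h1 := Pool.Agent.Helper75.ProC.prod_pow_primitive (pow_pos hp.out.pos j) hζ'
      simp only [← pow_mul] at h1
      rw [h1, sub_self])
  rw [eval₂_sub, eval₂_finsetProd, sub_eq_zero, eval₂_sub, eval₂_pow, eval₂_X, eval₂_one] at key
  rw [← key]
  refine Finset.prod_congr rfl fun z _ => ?_
  rw [eval₂_sub, eval₂_X, eval₂_C, ev_pow]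

/-- `γ^z - 1` and `γ - 1` divide each other if `z` is prime to `p` -/
theorem dvd1 (γ : R) (z : ℕ) : γ - 1 ∣ γ ^ z - 1 := by
  have := sub_dvd_pow_sub_pow γ 1 z
  rwa [one_pow] at this

theorem dvd2 (h1 : γ ^ p ^ (n + 1) = 1) {z : ℕ} (hz : ¬ p ∣ z) : γ ^ z - 1 ∣ γ - 1 := by
  have hc : z.Coprime (p ^ (n + 1)) := (coprime_iff z).2 hz
  obtain ⟨z', -, hz'⟩ := Nat.exists_mul_mod_eq_one_of_coprime hc
    (Nat.one_lt_pow (Nat.succ_ne_zero n) hp.out.one_lt)
  have h2 : γ ^ (z * z') = γ := by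
    conv_lhs => rw [← Nat.div_add_mod (z * z') (p ^ (n + 1)), hz', pow_add, pow_mul, h1]
    rw [one_pow, one_mul, pow_one]
  have h3 := dvd1 (γ ^ z) z'
  rwa [← pow_mul, h2] at h3

theorem unit_gamma (h1 : γ ^ p ^ (n + 1) = 1) : IsUnit γ :=
  IsUnit.of_pow_eq_one h1 (pow_pos hp.out.pos _).ne'

theorem dvd3 (h1 : γ ^ p ^ (n + 1) = 1) {a : ℕ} (ha : p ∣ a) : γ - γ ^ a ∣ γ - 1 := by
  rcases Nat.eq_zero_or_pos a with h | h
  · subst h; rw [pow_zero]
  · obtain ⟨a', rfl⟩ := Nat.exists_eq_add_of_le' h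
    have hz : ¬ p ∣ a' := fun h' => hp.out.one_lt.not_ge
      (Nat.le_of_dvd one_pos ((Nat.dvd_add_right h').1 ha))
    have h2 : γ - γ ^ (a' + 1) = (-γ) * (γ ^ a' - 1) := by ring
    rw [h2]
    exact ((unit_gamma h1).neg.mul_left_dvd).2 (dvd2 h1 hz)

theorem dvd4 (γ : R) (a : ℕ) : γ - 1 ∣ γ - γ ^ a := by
  have : γ - γ ^ a = (γ - 1) - (γ ^ a - 1) := by ring
  rw [this]
  exact dvd_sub dvd_rfl (dvd1 γ a)

theorem p_dvd (hΨ : ∑ i ∈ Finset.range p, γ ^ (i * p ^ n) = 0) :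
    (γ - 1) ^ (p ^ n * (p - 1)) ∣ (p : R) ∧ (p : R) ∣ (γ - 1) ^ (p ^ n * (p - 1)) := by
  have h := prodPrim (η := 1) hΨ
  simp only [one_pow, Finset.sum_const, Finset.card_range, nsmul_eq_mul, mul_one] at h
  have h1 := gamma_one hΨ
  have h2 : ∏ z ∈ SS p n, (γ - 1) = (γ - 1) ^ (p ^ n * (p - 1)) := by
    rw [Finset.prod_const, card_SS]
  rw [← h, ← h2]
  constructor
  · refine Finset.prod_dvd_prod_of_dvd _ _ fun z _ => ?_
    have := dvd1 γ z
    rw [← neg_sub (γ ^ z) 1, dvd_neg]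
    exact this
  · refine Finset.prod_dvd_prod_of_dvd _ _ fun z hz => ?_
    rw [← neg_sub (γ ^ z) 1, neg_dvd]
    exact dvd2 h1 (Finset.mem_filter.1 hz).2

theorem q_dvd (hΨ : ∑ i ∈ Finset.range p, γ ^ (i * p ^ n) = 0) {j : ℕ} (hj : j ≤ n) :
    (γ - 1) ^ p ^ j ∣ γ ^ p ^ j - 1 ∧ γ ^ p ^ j - 1 ∣ (γ - 1) ^ p ^ j := by
  have h := prodPart (η := γ) hΨ hj
  have h1 := gamma_one hΨ
  have h2 : ∏ z ∈ Finset.range (p ^ j), (γ - 1) = (γ - 1) ^ p ^ j := by
    rw [Finset.prod_const, Finset.card_range]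
  rw [← h, ← h2]
  have h3 : p ∣ p ^ (n + 1 - j) := dvd_pow_self p (by omega)
  exact ⟨Finset.prod_dvd_prod_of_dvd _ _ fun z _ => dvd4 γ _,
    Finset.prod_dvd_prod_of_dvd _ _ fun z _ => dvd3 h1 (h3.mul_right z)⟩

end ring

/-! ### the ring generated by the action -/

section act

variable {p : ℕ} [hp : Fact p.Prime] {d : ℕ} {X : Type u} [AddCommGroup X] [TopologicalSpace X]
  (b : Act p d X)

/-- the ring generated by the action -/
def Rg : Type u := Subring.closure (Set.range b.σ)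

noncomputable instance : CommRing (Rg b) :=
  { (Subring.toRing (Subring.closure (Set.range b.σ)) : Ring (Rg b)) with
    mul_comm := fun x y => (Subring.isMulCommutative_closure (s := Set.range b.σ) (by
      rintro _ ⟨k, rfl⟩ _ ⟨l, rfl⟩
      exact σ_comm b k l)).is_comm.comm x y }

/-- the embedding -/
noncomputable def io : Rg b →+* AddMonoid.End X := (Subring.closure (Set.range b.σ)).subtype

theorem io_inj {r s : Rg b} (h : io b r = io b s) : r = s := Subtype.ext h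

/-- the elements of the ring -/
noncomputable def sg (k : Fin d → ℤ_[p]) : Rg b := ⟨b.σ k, Subring.subset_closure ⟨k, rfl⟩⟩

theorem io_sg (k : Fin d → ℤ_[p]) : io b (sg b k) = b.σ k := rfl

/-- the action of the ring -/
noncomputable def ap (r : Rg b) (x : X) : X := io b r x

theorem ap_mul (r s : Rg b) (x : X) : ap b (r * s) x = ap b r (ap b s x) := by
  unfold ap
  rw [map_mul]
  rfl

theorem ap_one (x : X) : ap b 1 x = x := by
  unfold ap
  rw [map_one]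
  rfl

theorem sg_add (k l : Fin d → ℤ_[p]) : sg b (k + l) = sg b k * sg b l := by
  apply io_inj
  rw [map_mul, io_sg, io_sg, io_sg, b.add]

theorem sg_zero : sg b 0 = 1 := by
  apply io_inj
  rw [map_one, io_sg, b.zero]

theorem sg_nsmul (m : ℕ) (k : Fin d → ℤ_[p]) : sg b (m • k) = sg b k ^ m := by
  apply io_inj
  rw [map_pow, io_sg, io_sg, σ_nsmul]

theorem io_T (k : Fin d → ℤ_[p]) : io b (sg b k - 1) = b.T k := by
  rw [map_sub, map_one, io_sg]
  rfl

theorem ap_T (k : Fin d → ℤ_[p]) (x : X) : b.T k x = ap b (sg b k - 1) x := by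
  unfold ap
  rw [io_T]

theorem ap_Tpow (k : Fin d → ℤ_[p]) (m : ℕ) (x : X) :
    (b.T k ^ m) x = ap b ((sg b k - 1) ^ m) x := by
  unfold ap
  rw [map_pow, io_T]

theorem ap_p (m : ℕ) (x : X) : m • x = ap b (m : Rg b) x := by
  unfold ap
  rw [map_natCast]
  rfl

theorem ap_Psi (g : Fin d → ℤ_[p]) (n : ℕ) (x : X) :
    Psi b g n x = ap b (∑ i ∈ Finset.range p, sg b g ^ (i * p ^ n)) x := by
  unfold ap Psi
  rw [map_sum]
  have : ∀ i ∈ Finset.range p, io b (sg b g ^ (i * p ^ n)) = b.σ ((i * p ^ n) • g) := by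
    intro i _
    rw [← sg_nsmul, io_sg]
  rw [Finset.sum_congr rfl this]

theorem ap_mem (r : Rg b) (Y : AddSubgroup X) (hY : ∀ k, ∀ y ∈ Y, b.σ k y ∈ Y) (y : X)
    (hy : y ∈ Y) : ap b r y ∈ Y := by
  obtain ⟨r, hr⟩ := r
  show r y ∈ Y
  induction hr using Subring.closure_induction generalizing y with
  | mem x hx => obtain ⟨k, rfl⟩ := hx; exact hY k y hy
  | zero => exact Y.zero_mem
  | one => exact hy
  | add x z _ _ h1 h2 => exact Y.add_mem (h1 y hy) (h2 y hy)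
  | neg x _ h1 => exact Y.neg_mem (h1 y hy)
  | mul x z _ _ h1 h2 => exact h1 _ (h2 y hy)

/-- products of operators -/
theorem prod_step (t : Rg b) (A : ℕ → Rg b) (Z : Finset ℕ)
    (h : ∀ z ∈ Z, ∀ x, ∃ y, ap b t x = ap b (A z) y) :
    ∀ x, ∃ y, ap b (t ^ Z.card) x = ap b (∏ z ∈ Z, A z) y := by
  classical
  induction Z using Finset.induction_on with
  | empty => intro x; exact ⟨x, by simp⟩
  | insert a Z ha ih =>
    intro x
    obtain ⟨y, hy⟩ := h a (Finset.mem_insert_self _ _) x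
    obtain ⟨y', hy'⟩ := ih (fun z hz => h z (Finset.mem_insert_of_mem hz)) y
    refine ⟨y', ?_⟩
    rw [Finset.card_insert_of_notMem ha, Finset.prod_insert ha, pow_succ, ap_mul, hy, ← ap_mul,
      mul_comm, ap_mul, hy', ← ap_mul]

/-- the factors -/
theorem factor (g v : Fin d → ℤ_[p]) (z : ℕ) (y : X) :
    b.T (v - z • g) y = ap b (sg b v - sg b g ^ z) (ap b (sg b (-(z • g))) y) := by
  rw [ap_T, ← ap_mul]
  congr 1
  rw [sub_mul, ← sg_nsmul, ← sg_add, ← sg_add, add_neg_cancel, sg_zero, sub_eq_add_neg v]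

end act

theorem pf_W3 : StmtW3.{u} := by
  intro p hp d X _ _ _ _ _ b g n hPsi
  have hΨ : ∑ i ∈ Finset.range p, sg b g ^ (i * p ^ n) = 0 := by
    refine io_inj b (AddMonoidHom.ext fun x => ?_)
    have := hPsi x
    rw [ap_Psi] at this
    rw [map_zero]
    exact this
  obtain ⟨⟨r1, hr1⟩, ⟨r2, hr2⟩⟩ := p_dvd hΨ
  refine ⟨?_, ?_, ?_, ?_, ?_, ?_, ?_⟩
  · intro Y hY y hy
    refine ⟨ap b r1 y, ap_mem b r1 Y hY y hy, ?_⟩
    rw [ap_Tpow, ← ap_mul, ← hr1, ap_p b]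
  · intro Y hY y hy
    refine ⟨ap b r2 y, ap_mem b r2 Y hY y hy, ?_⟩
    rw [ap_Tpow, hr2, ap_mul, ap_p b]
  · intro j hj Y hY y hy
    obtain ⟨s, hs⟩ := (q_dvd hΨ hj).1
    refine ⟨ap b s y, ap_mem b s Y hY y hy, ?_⟩
    rw [ap_Tpow, ← ap_mul, ← hs, ap_T, sg_nsmul]
  · intro j hj Y hY y hy
    obtain ⟨s, hs⟩ := (q_dvd hΨ hj).2
    refine ⟨ap b s y, ap_mem b s Y hY y hy, ?_⟩
    rw [ap_Tpow, hs, ap_mul, ap_T, sg_nsmul]
  · intro w K h x
    obtain ⟨y, hy⟩ := prod_step b ((sg b g - 1) ^ K) (fun z => sg b w - sg b g ^ z)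
      (Finset.range (p ^ (n + 1))) (fun z _ x => by
        obtain ⟨y, hy⟩ := h z x
        exact ⟨ap b (sg b (-(z • g))) y, by rw [← factor, ← hy, ap_Tpow]⟩) x
    refine ⟨y, ?_⟩
    rw [Finset.card_range, prodAll hΨ, ← pow_mul] at hy
    rw [ap_Tpow, hy, ap_T, sg_nsmul]
  · intro w K j hj h x
    obtain ⟨y, hy⟩ := prod_step b ((sg b g - 1) ^ K) (fun z => sg b (p ^ j • w) - sg b g ^ z)
      (SS p n) (fun z hz x => by
        obtain ⟨y, hy⟩ := h z (Finset.mem_filter.1 hz).2 x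
        exact ⟨ap b (sg b (-(z • g))) y, by rw [← factor, ← hy, ap_Tpow]⟩) x
    refine ⟨y, ?_⟩
    rw [card_SS, prodPrim hΨ, ← pow_mul] at hy
    rw [ap_Tpow, hy, ap_Psi]
    congr 1
    refine Finset.sum_congr rfl fun i _ => ?_
    rw [sg_nsmul, ← pow_mul]
    congr 1
    rw [pow_add]
    ring
  · intro v K j hj h x
    obtain ⟨y, hy⟩ := prod_step b ((sg b g - 1) ^ K)
      (fun z => sg b v - sg b g ^ (p ^ (n + 1 - j) * z))
      (Finset.range (p ^ j)) (fun z _ x => by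
        obtain ⟨y, hy⟩ := h z x
        exact ⟨ap b (sg b (-((p ^ (n + 1 - j) * z) • g))) y, by rw [← factor, ← hy, ap_Tpow]⟩) x
    refine ⟨y, ?_⟩
    rw [Finset.card_range, prodPart hΨ hj, ← pow_mul] at hy
    rw [ap_Tpow, hy, ap_T, sg_nsmul]

end Pool.Agent.Helper10.Full
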